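import Mathlib

set_option autoImplicit false

/-!
Quasi-identities of groups: basic notions.

The definitions `Holds`, `IsBasis`, `Independent` and the lemmas `compactness`, `extend` and
`fin_axiom` are taken over (verbatim up to the namespace) from the team library module
`Pool.Graph.R_pool_sql_team_seeded_620a6dc7.Results.MP_6fc7a0_al.FewGenerators`.
-/

namespace Pool.Agent.H318.QI

/-- A quasi-identity. -/
abbrev QId : Type := Finset (FreeGroup ℕ) × FreeGroup ℕ

/-- A quasi-identity `(P, w)` (all words of `P` equal `1` imply `w = 1`, in the variables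
`x_0, x_1, …`) holds in the group `H`. -/
def Holds (H : Type) [Group H] (q : Finset (FreeGroup ℕ) × FreeGroup ℕ) : Prop :=
  ∀ ψ : FreeGroup ℕ →* H, (∀ w ∈ q.1, ψ w = 1) → ψ q.2 = 1

/-- `S` is a basis of quasi-identities of `G`. -/
def IsBasis (G : Type) [Group G] (S : Set (Finset (FreeGroup ℕ) × FreeGroup ℕ)) : Prop :=
  ∀ q, Holds G q ↔ ∀ (H : Type) [Group H], (∀ p ∈ S, Holds H p) → Holds H q

/-- No member of `S` is a consequence of the other members. -/
def Independent (S : Set (Finset (FreeGroup ℕ) × FreeGroup ℕ)) : Prop :=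
  ∀ σ ∈ S, ¬ ∀ (H : Type) [Group H], (∀ p ∈ S, p ≠ σ → Holds H p) → Holds H σ

/-- Compactness for quasi-identities of groups. -/
lemma compactness (S : Set (Finset (FreeGroup ℕ) × FreeGroup ℕ))
    (q : Finset (FreeGroup ℕ) × FreeGroup ℕ)
    (h : ∀ (H : Type) [Group H], (∀ p ∈ S, Holds H p) → Holds H q) :
    ∃ T : Set (Finset (FreeGroup ℕ) × FreeGroup ℕ), T ⊆ S ∧ T.Finite ∧
      ∀ (H : Type) [Group H], (∀ p ∈ T, Holds H p) → Holds H q := by
  classical
  by_contra hcon
  push Not at hcon
  let I := {s : Finset (Finset (FreeGroup ℕ) × FreeGroup ℕ) // (↑s : Set _) ⊆ S}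
  have hI : ∀ s : I, ∃ (H : Type) (_ : Group H), (∀ p ∈ (↑s.1 : Set _), Holds H p) ∧ ¬ Holds H q :=
    fun s => hcon _ s.2 s.1.finite_toSet
  choose H gH hH1 hH2 using hI
  have hψ : ∀ s : I, ∃ ψ : FreeGroup ℕ →* H s, (∀ w ∈ q.1, ψ w = 1) ∧ ψ q.2 ≠ 1 := by
    intro s
    have := hH2 s
    unfold Holds at this
    push Not at this
    exact this
  choose ψ hψ1 hψ2 using hψ
  have : Nonempty I := ⟨⟨∅, by simp⟩⟩
  have : IsDirected I (· ≤ ·) := ⟨fun a b => ⟨⟨a.1 ∪ b.1, by
    intro x hx
    simp only [Finset.coe_union, Set.mem_union] at hx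
    exact hx.elim (fun h => a.2 h) (fun h => b.2 h)⟩,
    Finset.subset_union_left, Finset.subset_union_right⟩⟩
  let F : Filter I := Filter.atTop
  let M : Subgroup (∀ s, H s) :=
    { carrier := {f | ∀ᶠ s in F, f s = 1}
      one_mem' := Filter.Eventually.of_forall fun _ => rfl
      mul_mem' := by
        intro a b ha hb
        filter_upwards [ha, hb] with s h1 h2
        simp [Pi.mul_apply, h1, h2]
      inv_mem' := by
        intro a ha
        filter_upwards [ha] with s h1
        simp [Pi.inv_apply, h1] }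
  have : M.Normal := ⟨by
    intro a ha g
    filter_upwards [ha] with s h1
    simp [Pi.mul_apply, Pi.inv_apply, h1]⟩
  have key : ∀ p ∈ S, Holds ((∀ s, H s) ⧸ M) p := by
    intro p hp θ hθ
    let θ' : FreeGroup ℕ →* (∀ s, H s) := FreeGroup.lift fun n => (θ (FreeGroup.of n)).out
    have hθ' : ∀ w, QuotientGroup.mk' M (θ' w) = θ w := by
      intro w
      have : (QuotientGroup.mk' M).comp θ' = θ := by
        ext n
        simp [θ']
      exact DFunLike.congr_fun this w
    have hmem : ∀ w, θ w = 1 ↔ ∀ᶠ s in F, θ' w s = 1 := by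
      intro w
      rw [← hθ' w, QuotientGroup.mk'_apply, QuotientGroup.eq_one_iff]
      rfl
    rw [hmem]
    have h1 : ∀ᶠ s in F, ∀ w ∈ p.1, θ' w s = 1 := by
      rw [Filter.eventually_all_finset]
      intro w hw
      exact (hmem w).1 (hθ w hw)
    have h2 : ∀ᶠ s in F, p ∈ (s : I).1 := by
      refine Filter.eventually_atTop.2 ⟨⟨{p}, by simpa using hp⟩, fun b hb => ?_⟩
      exact hb (Finset.mem_singleton_self p)
    filter_upwards [h1, h2] with s h1 h2
    exact hH1 s p h2 ((Pi.evalMonoidHom H s).comp θ') h1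
  have hq := h _ key ((QuotientGroup.mk' M).comp (MonoidHom.mk' (fun w s => ψ s w)
    (by intro a b; funext s; simp))) (by
      intro w hw
      simp only [MonoidHom.comp_apply, QuotientGroup.mk'_apply, QuotientGroup.eq_one_iff]
      exact Filter.Eventually.of_forall fun s => hψ1 s w hw)
  simp only [MonoidHom.comp_apply, QuotientGroup.mk'_apply, QuotientGroup.eq_one_iff] at hq
  have hq' : ∀ᶠ s in F, ψ s q.2 = 1 := hq
  obtain ⟨s, hs⟩ := hq'.exists
  exact hψ2 s hs

/-- Extension of a homomorphism from the free group of rank `k` to the free group on `ℕ`, along the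
first `k` variables. -/
lemma extend {k : ℕ} {H : Type} [Group H] (θ : FreeGroup (Fin k) →* H) :
    ∃ ψ : FreeGroup ℕ →* H, ∀ w, ψ (FreeGroup.map (fun i : Fin k => (i : ℕ)) w) = θ w := by
  classical
  refine ⟨FreeGroup.lift fun n => if h : n < k then θ (FreeGroup.of ⟨n, h⟩) else 1, fun w => ?_⟩
  have : (FreeGroup.lift fun n => if h : n < k then θ (FreeGroup.of ⟨n, h⟩) else 1).comp
      (FreeGroup.map (fun i : Fin k => (i : ℕ))) = θ := by
    ext i
    simp
  exact DFunLike.congr_fun this w

/-- The `k`-variable quasi-identities of a finite group follow from finitely many members of any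
basis; hence the `k`-generated groups of the quasivariety are finitely axiomatised. -/
lemma fin_axiom (G : Type) [Group G] [Finite G] (S : Set (Finset (FreeGroup ℕ) × FreeGroup ℕ))
    (hb : IsBasis G S) (k : ℕ) :
    ∃ T : Set (Finset (FreeGroup ℕ) × FreeGroup ℕ), T ⊆ S ∧ T.Finite ∧
      ∀ (H : Type) [Group H] (x : Fin k → H), Subgroup.closure (Set.range x) = ⊤ →
        (∀ p ∈ T, Holds H p) → ∀ q, Holds G q → Holds H q := by
  classical
  let Fk := FreeGroup (Fin k)
  let ι : Fin k → ℕ := fun i => (i : ℕ)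
  have : Finite (Fk →* G) := Finite.of_equiv (Fin k → G) FreeGroup.lift
  let Φ : Fk →* ((Fk →* G) → G) := MonoidHom.mk' (fun w φ => φ w) (by
    intro a b; funext φ; simp)
  let N : Subgroup Fk := Φ.ker
  have hNfi : N.FiniteIndex := Subgroup.finiteIndex_ker Φ
  have hNfg : Group.FG N := Subgroup.fg_of_index_ne_zero N
  have hNfg' : N.FG := (Group.fg_iff_subgroup_fg N).1 hNfg
  obtain ⟨W, hW⟩ := hNfg'
  have hfinQ : Finite (Fk ⧸ N) := Subgroup.finite_quotient_of_finiteIndex
  have hNG : ∀ w ∈ N, ∀ φ : Fk →* G, φ w = 1 := by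
    intro w hw φ
    have : Φ w = 1 := hw
    exact congrFun this φ
  -- finite subsets implying the identities of `W`
  have hidW : ∀ w : Fk, ∃ T : Set (Finset (FreeGroup ℕ) × FreeGroup ℕ), T ⊆ S ∧ T.Finite ∧
      (w ∈ W → ∀ (H : Type) [Group H], (∀ p ∈ T, Holds H p) →
        Holds H (∅, FreeGroup.map ι w)) := by
    intro w
    by_cases hw : w ∈ W
    · have hG : Holds G (∅, FreeGroup.map ι w) := by
        intro ψ _
        have hwN : w ∈ N := hW ▸ Subgroup.subset_closure hw
        exact hNG w hwN (ψ.comp (FreeGroup.map ι))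
      obtain ⟨T, h1, h2, h3⟩ := compactness S _ ((hb _).1 hG)
      exact ⟨T, h1, h2, fun _ => h3⟩
    · exact ⟨∅, by simp, by simp, fun h => absurd h hw⟩
  choose TW hTW1 hTW2 hTW3 using hidW
  -- canonical quasi-identities
  let rep : Fk ⧸ N → Fk := fun a => a.out
  let can : Finset (Fk ⧸ N) × (Fk ⧸ N) → Finset (FreeGroup ℕ) × FreeGroup ℕ := fun t =>
    (t.1.image fun a => FreeGroup.map ι (rep a), FreeGroup.map ι (rep t.2))
  have hcan : ∀ t : Finset (Fk ⧸ N) × (Fk ⧸ N),
      ∃ T : Set (Finset (FreeGroup ℕ) × FreeGroup ℕ), T ⊆ S ∧ T.Finite ∧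
      (Holds G (can t) → ∀ (H : Type) [Group H], (∀ p ∈ T, Holds H p) → Holds H (can t)) := by
    intro t
    by_cases ht : Holds G (can t)
    · obtain ⟨T, h1, h2, h3⟩ := compactness S _ ((hb _).1 ht)
      exact ⟨T, h1, h2, fun _ => h3⟩
    · exact ⟨∅, by simp, by simp, fun h => absurd h ht⟩
  choose TC hTC1 hTC2 hTC3 using hcan
  refine ⟨(⋃ w ∈ W, TW w) ∪ ⋃ t, TC t, ?_, ?_, ?_⟩
  · apply Set.union_subset
    · exact Set.iUnion₂_subset fun w _ => hTW1 w
    · exact Set.iUnion_subset fun t => hTC1 t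
  · apply Set.Finite.union
    · exact W.finite_toSet.biUnion fun w _ => hTW2 w
    · exact Set.finite_iUnion hTC2
  · intro H _ x hx hT q hq
    let θ : Fk →* H := FreeGroup.lift x
    have hθs : Function.Surjective θ := by
      rw [← MonoidHom.range_eq_top, FreeGroup.range_lift_eq_closure]
      exact hx
    -- `θ` kills `N`
    have hkill : ∀ w ∈ N, θ w = 1 := by
      obtain ⟨ψ, hψ⟩ := extend θ
      have hle : Subgroup.closure (W : Set Fk) ≤ θ.ker := by
        rw [Subgroup.closure_le]
        intro w hw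
        have h1 : Holds H (∅, FreeGroup.map ι w) := hTW3 w hw H fun p hp => hT p
          (Or.inl (Set.mem_biUnion hw hp))
        have h2 := h1 ψ (by simp)
        exact (hψ w).symm.trans h2
      intro w hw
      exact hle (hW.symm ▸ hw)
    intro ψ hψ
    let ψ' : FreeGroup ℕ →* Fk := FreeGroup.lift fun n => (hθs (ψ (FreeGroup.of n))).choose
    have hψ' : ∀ w, θ (ψ' w) = ψ w := by
      intro w
      have : θ.comp ψ' = ψ := by
        ext n
        simpa [ψ'] using (hθs (ψ (FreeGroup.of n))).choose_spec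
      exact DFunLike.congr_fun this w
    -- the class of the substituted quasi-identity
    let t : Finset (Fk ⧸ N) × (Fk ⧸ N) :=
      (q.1.image fun w => (QuotientGroup.mk (ψ' w) : Fk ⧸ N), QuotientGroup.mk (ψ' q.2))
    have hrep : ∀ {K : Type} [Group K] (φ : Fk →* K), (∀ w ∈ N, φ w = 1) → ∀ w : Fk,
        φ (rep (QuotientGroup.mk w)) = φ w := by
      intro K _ φ hφ w
      have h1 : (QuotientGroup.mk (rep (QuotientGroup.mk w)) : Fk ⧸ N) = QuotientGroup.mk w :=
        Quotient.out_eq _
      have h2 := hφ _ (QuotientGroup.eq.1 h1)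
      rw [map_mul, map_inv] at h2
      exact inv_mul_eq_one.1 h2
    have hGt : Holds G (can t) := by
      intro φ hφ
      have hφN : ∀ w ∈ N, (φ.comp (FreeGroup.map ι)) w = 1 := fun w hw => hNG w hw _
      have h1 := hq ((φ.comp (FreeGroup.map ι)).comp ψ') (by
        intro w hw
        have h2 := hφ (FreeGroup.map ι (rep (QuotientGroup.mk (ψ' w))))
          (Finset.mem_image_of_mem _ (Finset.mem_image_of_mem _ hw))
        have h3 := hrep (φ.comp (FreeGroup.map ι)) hφN (ψ' w)
        exact h3.symm.trans h2)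
      exact (hrep (φ.comp (FreeGroup.map ι)) hφN (ψ' q.2)).trans h1
    have hHt : Holds H (can t) := hTC3 t hGt H fun p hp => hT p (Or.inr (Set.mem_iUnion.2 ⟨t, hp⟩))
    obtain ⟨η, hη⟩ := extend θ
    have h1 := hHt η (by
      intro w hw
      obtain ⟨a, ha, rfl⟩ := Finset.mem_image.1 hw
      obtain ⟨v, hv, rfl⟩ := Finset.mem_image.1 ha
      rw [hη, hrep θ hkill, hψ']
      exact hψ v hv)
    have h2 : η (FreeGroup.map ι (rep (QuotientGroup.mk (ψ' q.2)))) = 1 := h1
    rw [hη, hrep θ hkill, hψ'] at h2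
    exact h2

/-! ### Elementary lemmas -/

/-- If the points of `K` are separated by homomorphisms to groups satisfying `p`, then `K`
satisfies `p`. -/
lemma holds_of_sep {K : Type} [Group K] {p : QId}
    (h : ∀ x : K, x ≠ 1 → ∃ (Z : Type) (_ : Group Z) (f : K →* Z), Holds Z p ∧ f x ≠ 1) :
    Holds K p := by
  intro ψ hψ
  by_contra hne
  obtain ⟨Z, _, f, hZ, hf⟩ := h _ hne
  exact hf (hZ (f.comp ψ) fun w hw => by simp [hψ w hw])

lemma Holds.of_injective {K H : Type} [Group K] [Group H] {p : QId} (hp : Holds H p)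
    (f : K →* H) (hf : Function.Injective f) : Holds K p :=
  holds_of_sep fun x hx => ⟨H, inferInstance, f, hp, fun h => hx (hf (by simpa using h))⟩

lemma Holds.subgroup {H : Type} [Group H] {p : QId} (hp : Holds H p) (K : Subgroup H) :
    Holds K p :=
  hp.of_injective K.subtype K.subtype_injective

/-- every word involves finitely many variables. -/
lemma exists_bound (w : FreeGroup ℕ) : ∃ k : ℕ, ∀ k' ≥ k,
    w ∈ Subgroup.closure (FreeGroup.of '' Set.Iio k') := by
  induction w using FreeGroup.induction_on with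
  | C1 => exact ⟨0, fun k' _ => one_mem _⟩
  | of n =>
    exact ⟨n + 1, fun k' hk' => Subgroup.subset_closure ⟨n, by
      simp only [Set.mem_Iio]; omega, rfl⟩⟩
  | inv_of n ih =>
    obtain ⟨k, hk⟩ := ih
    exact ⟨k, fun k' hk' => inv_mem (hk k' hk')⟩
  | mul a b iha ihb =>
    obtain ⟨k, hk⟩ := iha
    obtain ⟨l, hl⟩ := ihb
    exact ⟨max k l, fun k' hk' => mul_mem (hk k' (le_trans (le_max_left _ _) hk'))
      (hl k' (le_trans (le_max_right _ _) hk'))⟩

/-- Every quasi-identity `σ` has a number `k` such that whenever `H` fails `σ` then some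
`k`-generated subgroup of `H` fails `σ`. -/
lemma exists_numVars (σ : QId) : ∃ k : ℕ, ∀ (H : Type) [Group H], ¬ Holds H σ →
    ∃ (K : Subgroup H) (x : Fin k → K), Subgroup.closure (Set.range x) = ⊤ ∧ ¬ Holds K σ := by
  classical
  choose b hb using exists_bound
  let k := σ.1.sup b ⊔ b σ.2
  refine ⟨k, fun H _ hH => ?_⟩
  unfold Holds at hH
  push Not at hH
  obtain ⟨ψ, hψ1, hψ2⟩ := hH
  let K : Subgroup H := Subgroup.closure (Set.range fun i : Fin k => ψ (FreeGroup.of (i : ℕ)))
  let x : Fin k → K := fun i => ⟨ψ (FreeGroup.of (i : ℕ)), Subgroup.subset_closure ⟨i, rfl⟩⟩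
  refine ⟨K, x, ?_, fun hK => ?_⟩
  · have h1 : Subgroup.map K.subtype (Subgroup.closure (Set.range x)) =
        Subgroup.map K.subtype ⊤ := by
      rw [MonoidHom.map_closure, ← Set.range_comp, ← MonoidHom.range_eq_map,
        Subgroup.range_subtype]
      rfl
    exact Subgroup.map_injective K.subtype_injective h1
  · let χ : FreeGroup ℕ →* K := FreeGroup.lift fun n => if h : n < k then x ⟨n, h⟩ else 1
    have hχ : ∀ w ∈ Subgroup.closure (FreeGroup.of '' Set.Iio k), (χ w : H) = ψ w := by
      have : Subgroup.closure (FreeGroup.of '' Set.Iio k) ≤ (K.subtype.comp χ).eqLocus ψ := by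
        rw [Subgroup.closure_le]
        rintro _ ⟨n, hn, rfl⟩
        have hn' : n < k := hn
        change (K.subtype.comp χ) _ = ψ _
        simp [χ, hn', x]
      intro w hw
      exact this hw
    have hk1 : ∀ w ∈ σ.1, b w ≤ k := fun w hw => le_trans (Finset.le_sup hw) le_sup_left
    have h2 := hK χ (by
      intro w hw
      apply K.subtype_injective
      have := hχ w (hb w k (hk1 w hw))
      simpa [hψ1 w hw] using this)
    apply hψ2
    rw [← hχ _ (hb σ.2 k le_sup_right), h2]
    rfl

/-- Finite groups satisfying a basis of `G` are separated by homomorphisms to `G`. -/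
lemma separation {G : Type} [Group G] {S : Set QId} (hb : IsBasis G S)
    {X : Type} [Group X] [Finite X] (hX : ∀ p ∈ S, Holds X p) (x : X) (hx : x ≠ 1) :
    ∃ f : X →* G, f x ≠ 1 := by
  classical
  by_contra hcon
  push Not at hcon
  obtain ⟨n, ⟨e⟩⟩ := Finite.exists_equiv_fin X
  have : Fintype X := Fintype.ofFinite X
  let P : Finset (FreeGroup ℕ) := Finset.univ.image fun ab : X × X =>
    FreeGroup.of (e ab.1 : ℕ) * FreeGroup.of (e ab.2 : ℕ) *
      (FreeGroup.of (e (ab.1 * ab.2) : ℕ))⁻¹
  have hG : Holds G (P, FreeGroup.of (e x : ℕ)) := by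
    intro ψ hψ
    let f : X →* G := MonoidHom.mk' (fun a => ψ (FreeGroup.of (e a : ℕ))) (by
      intro a b
      have := hψ _ (Finset.mem_image_of_mem _ (Finset.mem_univ (a, b)))
      simp only [map_mul, map_inv] at this
      exact (mul_inv_eq_one.1 this).symm)
    exact hcon f
  have hXq := (hb _).1 hG X hX (FreeGroup.lift fun m => if h : m < n then e.symm ⟨m, h⟩ else 1)
  apply hx
  have h2 := hXq (by
    intro w hw
    obtain ⟨ab, _, rfl⟩ := Finset.mem_image.1 hw
    simp)
  simpa using h2

end Pool.Agent.H318.QI
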