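import Mathlib
import Pool.Agent.H318.QI.Basic

set_option autoImplicit false

/-!
Finitely many laws of a finite group `G` suffice to make finitely generated groups finite, and to
give every nontrivial finitely generated group a proper subgroup of index at most `|G|`.
-/

namespace Pool.Agent.H318.QI

open scoped commutatorElement

/-! ### Iterated commutators -/

/-- The iterated commutator `[..[[z, y₁⁻¹ u₁ y₁], y₂⁻¹ u₂ y₂], ..]`. -/
def W {H : Type} [Group H] (z : H) (l : List (H × H)) : H :=
  l.foldl (fun z p => ⁅z, p.2⁻¹ * p.1 * p.2⁆) z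

@[simp] lemma W_nil {H : Type} [Group H] (z : H) : W z [] = z := rfl

@[simp] lemma W_cons {H : Type} [Group H] (z : H) (p : H × H) (l : List (H × H)) :
    W z (p :: l) = W ⁅z, p.2⁻¹ * p.1 * p.2⁆ l := rfl

lemma map_W {H K : Type} [Group H] [Group K] (f : H →* K) (z : H) (l : List (H × H)) :
    f (W z l) = W (f z) (l.map fun p => (f p.1, f p.2)) := by
  induction l generalizing z with
  | nil => rfl
  | cons p l ih => simp [ih, map_commutatorElement]

@[simp] lemma W_one {H : Type} [Group H] (l : List (H × H)) : W (1 : H) l = 1 := by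
  induction l with
  | nil => rfl
  | cons p l ih => simp [ih]

lemma W_eq_one {H : Type} [Group H] (z : H) (l : List (H × H)) (h : ∃ p ∈ l, p.1 = 1) :
    W z l = 1 := by
  induction l generalizing z with
  | nil => simp at h
  | cons p l ih =>
    obtain ⟨q, hq, hq1⟩ := h
    rcases List.mem_cons.1 hq with rfl | hq
    · simp [hq1]
    · rw [W_cons]
      exact ih _ ⟨q, hq, hq1⟩

/-- The list of pairs of distinct elements of `Fin (g+1)`. -/
noncomputable def prs (g : ℕ) : List (Fin (g + 1) × Fin (g + 1)) :=
  (Finset.univ.filter fun p : Fin (g + 1) × Fin (g + 1) => p.1 ≠ p.2).toList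

lemma mem_prs {g : ℕ} (p : Fin (g + 1) × Fin (g + 1)) : p ∈ prs g ↔ p.1 ≠ p.2 := by
  simp [prs]

lemma nodup_prs (g : ℕ) : (prs g).Nodup := Finset.nodup_toList _

/-- The law `V`. -/
def LawV (g : ℕ) (H : Type) [Group H] : Prop :=
  ∀ (z : H) (x : Fin (g + 1) → H) (y : Fin (g + 1) × Fin (g + 1) → H),
    W z ((prs g).map fun p => ((x p.1)⁻¹ * x p.2, y p)) = 1

lemma LawV.of_injective {g : ℕ} {H K : Type} [Group H] [Group K] (h : LawV g H) (f : K →* H)
    (hf : Function.Injective f) : LawV g K := by
  intro z x y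
  apply hf
  rw [map_W, map_one, ← h (f z) (fun i => f (x i)) (fun p => f (y p))]
  simp [List.map_map, Function.comp_def]

lemma LawV.of_surjective {g : ℕ} {H K : Type} [Group H] [Group K] (h : LawV g H) (f : H →* K)
    (hf : Function.Surjective f) : LawV g K := by
  intro z x y
  choose s hs using hf
  have := congrArg f (h (s z) (fun i => s (x i)) (fun p => s (y p)))
  rw [map_W, map_one] at this
  simpa [List.map_map, Function.comp_def, hs] using this

lemma LawV.self {G : Type} [Group G] [Finite G] : LawV (Nat.card G) G := by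
  intro z x y
  apply W_eq_one
  have : ¬ Function.Injective x := by
    intro hx
    have := Nat.card_le_card_of_injective x hx
    simp at this
  rw [Function.not_injective_iff] at this
  obtain ⟨i, j, hij, hne⟩ := this
  exact ⟨_, List.mem_map.2 ⟨(i, j), (mem_prs _).2 hne, rfl⟩, by simp [hij]⟩

/-- If all `u p` lie outside the centraliser of `A`, where every nontrivial element of `A`
normally generates a subgroup containing `A`, then iterated commutators starting from a nontrivial
element of `A` can be kept nontrivial. -/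
lemma exists_W_ne_one {H ι : Type} [Group H] (A : Subgroup H) [A.Normal]
    (hmin : ∀ z ∈ A, z ≠ 1 → A ≤ Subgroup.normalClosure {z}) (u : ι → H)
    (l : List ι) (hl : l.Nodup) (hu : ∀ p ∈ l, u p ∉ Subgroup.centralizer (A : Set H)) :
    ∀ z ∈ A, z ≠ 1 → ∃ y : ι → H, W z (l.map fun p => (u p, y p)) ≠ 1 := by
  classical
  induction l with
  | nil => intro z _ hz; exact ⟨fun _ => 1, by simpa using hz⟩
  | cons p l ih =>
    intro z hz hz1
    have hex : ∃ y0 : H, ⁅z, y0⁻¹ * u p * y0⁆ ≠ 1 := by
      by_contra hcon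
      push Not at hcon
      have hle : Subgroup.normalClosure {z} ≤ Subgroup.centralizer {u p} := by
        rw [Subgroup.normalClosure, Subgroup.closure_le]
        intro w hw
        rw [Group.mem_conjugatesOfSet_iff] at hw
        obtain ⟨z', hz', hc⟩ := hw
        rw [Set.mem_singleton_iff] at hz'
        subst hz'
        obtain ⟨y, rfl⟩ := isConj_iff.1 hc
        have h1 := commutatorElement_eq_one_iff_mul_comm.1 (hcon y)
        rw [SetLike.mem_coe, Subgroup.mem_centralizer_singleton_iff]
        have h2 : y * (z' * (y⁻¹ * u p * y)) * y⁻¹ = y * ((y⁻¹ * u p * y) * z') * y⁻¹ := by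
          rw [h1]
        simp only [mul_assoc, mul_inv_cancel, mul_one, mul_inv_cancel_left] at h2 ⊢
        exact h2
      apply hu p List.mem_cons_self
      rw [Subgroup.mem_centralizer_iff]
      intro a ha
      have := hle (hmin z hz hz1 ha)
      rw [Subgroup.mem_centralizer_singleton_iff] at this
      exact this
    obtain ⟨y0, hy0⟩ := hex
    have hmemA : ⁅z, y0⁻¹ * u p * y0⁆ ∈ A := by
      rw [commutatorElement_def]
      have : z * (y0⁻¹ * u p * y0) * z⁻¹ * (y0⁻¹ * u p * y0)⁻¹
          = z * ((y0⁻¹ * u p * y0) * z⁻¹ * (y0⁻¹ * u p * y0)⁻¹) := by group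
      rw [this]
      exact mul_mem hz (Subgroup.Normal.conj_mem inferInstance _ (inv_mem hz) _)
    obtain ⟨y, hy⟩ := ih (List.nodup_cons.1 hl).2 (fun q hq => hu q (List.mem_cons_of_mem _ hq))
      _ hmemA hy0
    refine ⟨Function.update y p y0, ?_⟩
    rw [List.map_cons, W_cons]
    simp only [Function.update_self]
    have : (l.map fun q => (u q, Function.update y p y0 q)) = l.map fun q => (u q, y q) := by
      apply List.map_congr_left
      intro q hq
      rw [Function.update_of_ne]
      rintro rfl
      exact (List.nodup_cons.1 hl).1 hq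
    rw [this]
    exact hy

/-- Centralisers of minimal normal subgroups have index at most `g`. -/
lemma cent_index {H : Type} [Group H] {g : ℕ} (hV : LawV g H) (A : Subgroup H) [A.Normal]
    (hA : A ≠ ⊥) (hmin : ∀ z ∈ A, z ≠ 1 → A ≤ Subgroup.normalClosure {z}) :
    (Subgroup.centralizer (A : Set H)).index ≠ 0 ∧
      (Subgroup.centralizer (A : Set H)).index ≤ g := by
  classical
  by_contra hcon
  let C := Subgroup.centralizer (A : Set H)
  have hinj : ∃ x : Fin (g + 1) → H ⧸ C, Function.Injective x := by
    by_cases hfin : Finite (H ⧸ C)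
    · have h1 : C.index ≠ 0 := Subgroup.index_ne_zero_of_finite
      have h2 : g + 1 ≤ Nat.card (H ⧸ C) := by
        by_contra h
        exact hcon ⟨h1, by
          change C.index ≤ g
          rw [Subgroup.index]
          omega⟩
      have : Fintype (H ⧸ C) := Fintype.ofFinite _
      have : Nonempty (Fin (g + 1) ↪ H ⧸ C) := by
        apply Function.Embedding.nonempty_of_card_le
        rw [Fintype.card_fin, ← Nat.card_eq_fintype_card]
        exact h2
      obtain ⟨e⟩ := this
      exact ⟨e, e.injective⟩
    · rw [not_finite_iff_infinite] at hfin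
      let e := Infinite.natEmbedding (H ⧸ C)
      exact ⟨fun i => e i, fun i j h => Fin.ext (e.injective h)⟩
  obtain ⟨x, hx⟩ := hinj
  obtain ⟨z, hz, hz1⟩ := A.bot_or_exists_ne_one.resolve_left hA
  let u : Fin (g + 1) × Fin (g + 1) → H := fun p => (x p.1).out⁻¹ * (x p.2).out
  obtain ⟨y, hy⟩ := exists_W_ne_one A hmin u (prs g) (nodup_prs g) (by
    intro p hp hmem
    rw [mem_prs] at hp
    apply hp
    apply hx
    have := QuotientGroup.eq.2 hmem
    simpa using this) z hz hz1
  exact hy (hV z (fun i => (x i).out) y)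

/-! ### Proper subgroups of small index -/

/-- A nontrivial finitely generated group has a maximal proper normal subgroup. -/
lemma exists_max_normal (H : Type) [Group H] [Group.FG H] [Nontrivial H] :
    ∃ M : Subgroup H, M.Normal ∧ M ≠ ⊤ ∧ ∀ N : Subgroup H, N.Normal → M < N → N = ⊤ := by
  classical
  obtain ⟨S, hS, hSf⟩ := Group.fg_iff.1 (inferInstance : Group.FG H)
  obtain ⟨M, _, hM⟩ := zorn_le_nonempty₀ {N : Subgroup H | N.Normal ∧ N ≠ ⊤} (by
    intro c hc hchain y hy
    have hdir : DirectedOn (· ≤ ·) c := hchain.directedOn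
    refine ⟨sSup c, ⟨⟨?_⟩, ?_⟩, fun z hz => le_sSup hz⟩
    · intro n hn g
      rw [Subgroup.mem_sSup_of_directedOn ⟨y, hy⟩ hdir] at hn ⊢
      obtain ⟨s, hs, hns⟩ := hn
      exact ⟨s, hs, (hc hs).1.conj_mem n hns g⟩
    · intro htop
      have key : ∀ T : Set H, T.Finite → ∃ N ∈ c, T ⊆ (N : Set H) := by
        intro T hT
        induction T, hT using Set.Finite.induction_on with
        | empty => exact ⟨y, hy, by simp⟩
        | @insert a T _ _ ih =>
          obtain ⟨N, hN, hTN⟩ := ih
          have ha : a ∈ sSup c := by rw [htop]; trivial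
          rw [Subgroup.mem_sSup_of_directedOn ⟨y, hy⟩ hdir] at ha
          obtain ⟨N', hN', haN'⟩ := ha
          obtain ⟨K, hK, h1, h2⟩ := hdir N hN N' hN'
          exact ⟨K, hK, Set.insert_subset (h2 haN') (hTN.trans h1)⟩
      obtain ⟨N, hN, hSN⟩ := key S hSf
      apply (hc hN).2
      rw [eq_top_iff, ← hS, Subgroup.closure_le]
      exact hSN) ⊥ ⟨inferInstance, bot_ne_top⟩
  refine ⟨M, hM.prop.1, hM.prop.2, fun N hN hlt => ?_⟩
  by_contra hne
  exact hlt.not_ge (hM.le_of_ge ⟨hN, hne⟩ hlt.le)

/-- A nontrivial finitely generated group satisfying the law `V` and of exponent dividing `g`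
has a proper subgroup of index at most `g`. -/
lemma propSub {g : ℕ} (H : Type) [Group H] [Group.FG H] [Nontrivial H] (hg : g ≠ 0)
    (hV : LawV g H) (hexp : ∀ h : H, h ^ g = 1) :
    ∃ M : Subgroup H, M ≠ ⊤ ∧ M.index ≠ 0 ∧ M.index ≤ g := by
  obtain ⟨M, hMn, hMt, hM⟩ := exists_max_normal H
  refine ⟨M, hMt, ?_⟩
  rw [Subgroup.index]
  let S := H ⧸ M
  have hsurj : Function.Surjective (QuotientGroup.mk' M) := QuotientGroup.mk'_surjective M
  have hVS : LawV g S := hV.of_surjective _ hsurj
  have hexpS : ∀ s : S, s ^ g = 1 := by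
    intro s
    obtain ⟨h, rfl⟩ := hsurj s
    rw [← map_pow, hexp, map_one]
  have hsimple : ∀ N : Subgroup S, N.Normal → N ≠ ⊥ → N = ⊤ := by
    intro N hN hNb
    have h1 : N.comap (QuotientGroup.mk' M) = ⊤ := by
      apply hM _ (hN.comap _)
      refine lt_of_le_of_ne ?_ ?_
      · intro x hx
        rw [Subgroup.mem_comap]
        have : (QuotientGroup.mk' M) x = 1 := (QuotientGroup.eq_one_iff x).2 hx
        rw [this]
        exact one_mem _
      · intro heq
        apply hNb
        rw [eq_bot_iff]
        intro s hs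
        obtain ⟨h, rfl⟩ := hsurj s
        have : h ∈ N.comap (QuotientGroup.mk' M) := hs
        rw [← heq] at this
        exact (QuotientGroup.eq_one_iff h).2 this
    rw [eq_top_iff]
    intro s _
    obtain ⟨h, rfl⟩ := hsurj s
    have : h ∈ N.comap (QuotientGroup.mk' M) := by rw [h1]; trivial
    exact this
  have : Nontrivial S := by
    rw [← not_subsingleton_iff_nontrivial]
    intro hsub
    exact hMt (QuotientGroup.subgroup_eq_top_of_subsingleton M hsub)
  obtain ⟨h0, hle⟩ := cent_index hVS (⊤ : Subgroup S) top_ne_bot (by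
    intro z _ hz
    refine le_of_le_of_eq le_top (hsimple _ inferInstance ?_).symm
    intro hb
    apply hz
    have : z ∈ Subgroup.normalClosure {z} := Subgroup.subset_normalClosure rfl
    rw [hb] at this
    exact this)
  have hcen : Subgroup.centralizer ((⊤ : Subgroup S) : Set S) = Subgroup.center S := by
    rw [Subgroup.coe_top, Subgroup.centralizer_univ]
  rw [hcen] at h0 hle
  by_cases hc : Subgroup.center S = ⊥
  · rw [hc, Subgroup.index_bot] at h0 hle
    exact ⟨h0, hle⟩
  · have hctop := hsimple _ inferInstance hc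
    obtain ⟨s, hs⟩ := exists_ne (1 : S)
    have hz : Subgroup.zpowers s = ⊤ := by
      apply hsimple
      · constructor
        intro n hn x
        have : n ∈ Subgroup.center S := by rw [hctop]; trivial
        rw [Subgroup.mem_center_iff] at this
        rw [this x, mul_inv_cancel_right]
        exact hn
      · rw [Ne, Subgroup.zpowers_eq_bot]
        exact hs
    have hcard : Nat.card S = orderOf s := by
      rw [← Nat.card_zpowers, hz, Subgroup.card_top]
    have hord : orderOf s ∣ g := orderOf_dvd_of_pow_eq_one (hexpS s)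
    change Nat.card S ≠ 0 ∧ Nat.card S ≤ g
    rw [hcard]
    refine ⟨fun h => hg ?_, Nat.le_of_dvd (Nat.pos_of_ne_zero hg) hord⟩
    rw [h] at hord
    exact Nat.eq_zero_of_zero_dvd hord

/-! ### Intersections of small index normal subgroups of finite groups are nilpotent -/

lemma lemC_aux {g : ℕ} (n : ℕ) : ∀ (Q : Type) [Group Q] [Finite Q], Nat.card Q = n → LawV g Q →
    ∀ C : Subgroup Q, (∀ N : Subgroup Q, N.Normal → N.index ≤ g → C ≤ N) →
      Group.IsNilpotent C := by
  classical
  induction n using Nat.strong_induction_on with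
  | _ n ih =>
    intro Q _ _ hn hV C hC
    by_cases hQ : Subsingleton Q
    · infer_instance
    rw [not_subsingleton_iff_nontrivial] at hQ
    -- a minimal normal subgroup
    let F : Set (Subgroup Q) := {N | N.Normal ∧ N ≠ ⊥}
    have hFne : F.Nonempty := ⟨⊤, inferInstance, top_ne_bot⟩
    obtain ⟨A, hA⟩ := (Set.toFinite F).exists_minimal hFne
    have hAn : A.Normal := hA.prop.1
    have hAb : A ≠ ⊥ := hA.prop.2
    have hmin : ∀ z ∈ A, z ≠ 1 → A ≤ Subgroup.normalClosure {z} := by
      intro z hz hz1
      refine hA.le_of_le ⟨inferInstance, ?_⟩ ?_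
      · intro hb
        apply hz1
        have : z ∈ Subgroup.normalClosure {z} := Subgroup.subset_normalClosure rfl
        rw [hb] at this
        exact this
      · exact Subgroup.normalClosure_le_normal (by simpa using hz)
    obtain ⟨h0, hle⟩ := cent_index hV A hAb hmin
    have hCA : C ≤ Subgroup.centralizer (A : Set Q) := hC _ inferInstance hle
    have hsurj := QuotientGroup.mk'_surjective A
    have hlt : Nat.card (Q ⧸ A) < n := by
      have h1 := Subgroup.card_eq_card_quotient_mul_card_subgroup A
      have h2 : 1 < Nat.card A := by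
        rw [Finite.one_lt_card_iff_nontrivial]
        exact A.nontrivial_iff_ne_bot.2 hAb
      have h3 : 0 < Nat.card (Q ⧸ A) := Nat.card_pos
      rw [← hn, h1]
      nlinarith
    have hnil : Group.IsNilpotent (C.map (QuotientGroup.mk' A)) := by
      refine ih _ hlt (Q ⧸ A) rfl (hV.of_surjective _ hsurj) _ ?_
      intro N hN hNi
      rw [Subgroup.map_le_iff_le_comap]
      refine hC _ (hN.comap _) ?_
      rw [Subgroup.index_comap_of_surjective _ hsurj]
      exact hNi
    let f : C →* C.map (QuotientGroup.mk' A) := (QuotientGroup.mk' A).subgroupMap C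
    refine Subgroup.isNilpotent_of_ker_le_center f ?_
    intro x hx
    rw [Subgroup.mem_center_iff]
    intro y
    have hx1 : (QuotientGroup.mk' A) (x : Q) = 1 := congrArg Subtype.val hx
    have hxA : (x : Q) ∈ A := (QuotientGroup.eq_one_iff _).1 hx1
    have hy := hCA y.2
    rw [Subgroup.mem_centralizer_iff] at hy
    apply Subtype.ext
    exact (hy x hxA).symm

lemma lemC {g : ℕ} {Q : Type} [Group Q] [Finite Q] (hV : LawV g Q)
    (C : Subgroup Q) (hC : ∀ N : Subgroup Q, N.Normal → N.index ≤ g → C ≤ N) :
      Group.IsNilpotent C :=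
  lemC_aux _ Q rfl hV C hC

/-! ### Finitely generated nilpotent groups of finite exponent -/

lemma nil_finite {g : ℕ} (hg : g ≠ 0) (H : Type) [Group H] [Group.IsNilpotent H] :
    Group.FG H → (∀ h : H, h ^ g = 1) → Finite H := by
  refine Group.nilpotent_center_quotient_ind (P := fun (H : Type) [Group H] _ =>
    Group.FG H → (∀ h : H, h ^ g = 1) → Finite H) H ?_ ?_
  · intro G _ _ _ _
    infer_instance
  · intro G _ _ ih hfg hexp
    have hfin : Finite (G ⧸ Subgroup.center G) := by
      refine ih (QuotientGroup.fg _) ?_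
      intro s
      obtain ⟨h, rfl⟩ := QuotientGroup.mk'_surjective _ s
      rw [← map_pow, hexp, map_one]
    have hidx : (Subgroup.center G).FiniteIndex := Subgroup.finiteIndex_of_finite_quotient
    have hfgc : Group.FG (Subgroup.center G) := Subgroup.fg_of_index_ne_zero _
    have hfc : Finite (Subgroup.center G) := by
      let cg : CommGroup (Subgroup.center G) :=
        { (Subgroup.center G).toGroup with
          mul_comm := fun a b => Subtype.ext (Subgroup.mem_center_iff.1 b.2 a) }
      refine @CommGroup.finite_of_fg_isMulTorsion (Subgroup.center G) cg hfgc ?_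
      intro z
      rw [isOfFinOrder_iff_pow_eq_one]
      exact ⟨g, Nat.pos_of_ne_zero hg, Subtype.ext (hexp z)⟩
    exact (Subgroup.finite_iff_finite_and_finiteIndex (Subgroup.center G)).2 ⟨hfc, hidx⟩

/-! ### Left-normed commutators and the class -/

/-- The left-normed commutator `[..[[z, y₁], y₂], ..]`. -/
def LN {H : Type} [Group H] (z : H) (l : List H) : H := l.foldl (fun z y => ⁅z, y⁆) z

lemma LN_append {H : Type} [Group H] (z y : H) (l : List H) :
    LN z (l ++ [y]) = ⁅LN z l, y⁆ := by
  simp [LN]

lemma map_LN {H K : Type} [Group H] [Group K] (f : H →* K) (z : H) (l : List H) :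
    f (LN z l) = LN (f z) (l.map f) := by
  induction l generalizing z with
  | nil => rfl
  | cons p l ih =>
    change f (LN ⁅z, p⁆ l) = LN ⁅f z, f p⁆ (l.map f)
    rw [ih, map_commutatorElement]

lemma LN_mem {H : Type} [Group H] (S : Subgroup H) (z : H) (hz : z ∈ S) (l : List H)
    (hl : ∀ y ∈ l, y ∈ S) : LN z l ∈ S.lowerCentralSeries l.length := by
  induction l using List.reverseRecOn with
  | nil => exact hz
  | append_singleton l y ih =>
    rw [LN_append, List.length_append, List.length_singleton, Subgroup.lowerCentralSeries_succ]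
    exact Subgroup.commutator_mem_commutator (ih fun x hx => hl x (by simp [hx]))
      (hl y (by simp))

lemma lcs_of_LN (c : ℕ) : ∀ (H : Type) [Group H],
    (∀ (z : H) (l : List H), l.length = c → LN z l = 1) →
      (⊤ : Subgroup H).lowerCentralSeries c = ⊥ := by
  induction c with
  | zero =>
    intro H _ h
    rw [Subgroup.lowerCentralSeries_zero, eq_bot_iff]
    intro z _
    exact h z [] rfl
  | succ c ih =>
    intro H _ h
    apply Subgroup.lowerCentralSeries_succ_eq_bot
    have h1 : ∀ (z : H) (l : List H), l.length = c → LN z l ∈ Subgroup.center H := by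
      intro z l hl
      rw [Subgroup.mem_center_iff]
      intro y
      have h2 := h z (l ++ [y]) (by simp [hl])
      rw [LN_append, commutatorElement_eq_one_iff_mul_comm] at h2
      exact h2.symm
    have hsurj := QuotientGroup.mk'_surjective (Subgroup.center H)
    have h3 := ih (H ⧸ Subgroup.center H) (by
      intro z l hl
      obtain ⟨z, rfl⟩ := hsurj z
      obtain ⟨l, rfl⟩ := List.map_surjective_iff.2 hsurj l
      rw [← map_LN]
      exact (QuotientGroup.eq_one_iff _).2 (h1 z l (by simpa using hl)))
    have h4 : ((⊤ : Subgroup H).lowerCentralSeries c).map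
        (QuotientGroup.mk' (Subgroup.center H)) = ⊥ := by
      rw [Subgroup.map_lowerCentralSeries, Subgroup.map_top_of_surjective _ hsurj, h3]
    rw [Subgroup.map_eq_bot_iff, QuotientGroup.ker_mk'] at h4
    exact h4

/-- The classes of the nilpotent subgroups of a finite group are bounded. -/
lemma exists_class (G : Type) [Group G] [Finite G] :
    ∃ c : ℕ, ∀ K : Subgroup G, Group.IsNilpotent K → K.lowerCentralSeries c = ⊥ := by
  classical
  have h : ∀ K : Subgroup G, ∃ n : ℕ, Group.IsNilpotent K → K.lowerCentralSeries n = ⊥ := by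
    intro K
    by_cases hK : Group.IsNilpotent K
    · obtain ⟨n, hn⟩ := (Subgroup.isNilpotent_iff_lowerCentralSeries K).1 hK
      exact ⟨n, fun _ => hn⟩
    · exact ⟨0, fun h => absurd h hK⟩
  choose n hn using h
  have : Fintype (Subgroup G) := Fintype.ofFinite _
  refine ⟨Finset.univ.sup n, fun K hK => ?_⟩
  rw [eq_bot_iff, ← hn K hK]
  exact K.lowerCentralSeries_antitone (Finset.le_sup (Finset.mem_univ K))

/-- A nilpotent image of a finite group is the image of a nilpotent subgroup. -/
lemma nilpotent_supplement {R P : Type} [Group R] [Finite R] [Group P] (θ : R →* P)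
    (hP : Group.IsNilpotent P) :
    ∃ X : Subgroup R, X.map θ = θ.range ∧ Group.IsNilpotent X := by
  classical
  let F : Set (Subgroup R) := {X | X.map θ = θ.range}
  have hFne : F.Nonempty := ⟨⊤, (MonoidHom.range_eq_map θ).symm⟩
  obtain ⟨X, hX⟩ := (Set.toFinite F).exists_minimal hFne
  refine ⟨X, hX.prop, ?_⟩
  have hXmin : ∀ M : Subgroup X, (M.map X.subtype).map θ = θ.range → M = ⊤ := by
    intro M hM
    have h1 : X ≤ M.map X.subtype := hX.le_of_le hM (Subgroup.map_subtype_le M)
    rw [eq_top_iff]
    intro x _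
    obtain ⟨y, hy, hyx⟩ := h1 x.2
    have : y = x := Subtype.ext hyx
    exact this ▸ hy
  refine ((Group.isNilpotent_of_finite_tfae (G := X)).out 0 2).2 ?_
  intro M hM
  let θ0 : X →* θ.range := (θ.comp X.subtype).codRestrict θ.range (fun x => ⟨x, rfl⟩)
  have hθ0 : Function.Surjective θ0 := by
    rintro ⟨p, hp⟩
    have hp' := hp
    rw [← (show X.map θ = θ.range from hX.prop)] at hp'
    obtain ⟨x, hx, rfl⟩ := hp'
    exact ⟨⟨x, hx⟩, rfl⟩
  have hKM : θ0.ker ≤ M := by
    by_contra hn
    have htop : M ⊔ θ0.ker = ⊤ := hM.2 _ (by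
      refine lt_of_le_of_ne le_sup_left fun h => hn ?_
      rw [h]
      exact le_sup_right)
    apply hM.1
    apply hXmin
    have h1 : M.map θ0 = ⊤ := by
      have h2 : (M ⊔ θ0.ker).map θ0 = ⊤ := by
        rw [htop, Subgroup.map_top_of_surjective _ hθ0]
      rw [Subgroup.map_sup, (Subgroup.map_eq_bot_iff _).2 le_rfl, sup_bot_eq] at h2
      exact h2
    have h3 : (M.map X.subtype).map θ = (M.map θ0).map θ.range.subtype := by
      rw [Subgroup.map_map, Subgroup.map_map]
      rfl
    rw [h3, h1, ← MonoidHom.range_eq_map, Subgroup.range_subtype]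
  have hMeq : M = (M.map θ0).comap θ0 := by
    rw [Subgroup.comap_map_eq, sup_eq_left.2 hKM]
  have hM' : IsCoatom (M.map θ0) := by
    refine ⟨fun h => hM.1 ?_, fun N hN => ?_⟩
    · rw [hMeq, h, Subgroup.comap_top]
    · have h1 : N.comap θ0 = ⊤ := by
        apply hM.2
        rw [hMeq]
        exact (Subgroup.comap_lt_comap_of_surjective hθ0).2 hN
      have h2 : (N.comap θ0).map θ0 = ⊤ := by
        rw [h1, Subgroup.map_top_of_surjective _ hθ0]
      rwa [Subgroup.map_comap_eq_self_of_surjective hθ0] at h2
  have hnil : Group.IsNilpotent θ.range := inferInstance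
  have hfr : Finite θ.range := Finite.of_surjective _ hθ0
  have hnormal : (M.map θ0).Normal := by
    have := ((Group.isNilpotent_of_finite_tfae (G := θ.range)).out 0 2).1 hnil
    exact this _ hM'
  rw [hMeq]
  exact hnormal.comap θ0

/-! ### Laws -/

/-- `H` satisfies all laws of `G` in the variables `ι`. -/
def Laws (ι : Type) (G H : Type) [Group G] [Group H] : Prop :=
  ∀ φ : FreeGroup ι →* H, ∀ w : FreeGroup ι, (∀ ψ : FreeGroup ι →* G, ψ w = 1) → φ w = 1

lemma Laws.of_injective {ι G H K : Type} [Group G] [Group H] [Group K] (h : Laws ι G H)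
    (f : K →* H) (hf : Function.Injective f) : Laws ι G K := by
  intro φ w hw
  apply hf
  rw [map_one]
  exact h (f.comp φ) w hw

lemma Laws.of_surjective {ι G H K : Type} [Group G] [Group H] [Group K] (h : Laws ι G H)
    (f : H →* K) (hf : Function.Surjective f) : Laws ι G K := by
  intro φ w hw
  choose s hs using hf
  let φ' : FreeGroup ι →* H := FreeGroup.lift fun i => s (φ (FreeGroup.of i))
  have : f.comp φ' = φ := by
    ext i
    simp [φ', hs]
  rw [← this, MonoidHom.comp_apply, h φ' w hw, map_one]

/-- Nilpotent groups satisfying sufficiently many laws of `G` have bounded class. -/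
lemma class_bound (G : Type) [Group G] [Finite G] :
    ∃ c : ℕ, ∀ (P : Type) [Group P], Group.IsNilpotent P → Laws (Fin (c + 1)) G P →
      (⊤ : Subgroup P).lowerCentralSeries c = ⊥ := by
  classical
  obtain ⟨c, hc⟩ := exists_class G
  refine ⟨c, fun P _ hP hlaw => lcs_of_LN c P ?_⟩
  intro z l hl
  let F := FreeGroup (Fin (c + 1))
  have : Finite (F →* G) := Finite.of_equiv (Fin (c + 1) → G) FreeGroup.lift
  let Φ : F →* ((F →* G) → G) := MonoidHom.mk' (fun w φ => φ w) (by
    intro a b; funext φ; simp)
  let p : Fin (c + 1) → P := fun i => (z :: l).get (i.cast (by simp [hl]))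
  let θ : F →* P := FreeGroup.lift p
  have hker : Φ.rangeRestrict.ker ≤ θ.ker := by
    intro w hw
    apply hlaw θ w
    intro ψ
    have : Φ w = 1 := by
      have := congrArg Subtype.val hw
      exact this
    exact congrFun this ψ
  let θ' : Φ.range →* P := Φ.rangeRestrict.liftOfSurjective Φ.rangeRestrict_surjective ⟨θ, hker⟩
  have hθ' : ∀ w : F, θ' (Φ.rangeRestrict w) = θ w := by
    intro w
    exact MonoidHom.liftOfRightInverse_comp_apply _ _ _ _ _
  obtain ⟨X, hX, hXnil⟩ := nilpotent_supplement θ' hP
  have hmem : ∀ q ∈ z :: l, ∃ x : X, θ' x = q := by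
    intro q hq
    obtain ⟨i, hi⟩ := List.get_of_mem hq
    have h1 : q ∈ θ'.range := by
      refine ⟨Φ.rangeRestrict (FreeGroup.of (i.cast (by simp [hl]))), ?_⟩
      rw [hθ']
      have h2 : θ (FreeGroup.of (i.cast (by simp [hl]))) = p (i.cast (by simp [hl])) :=
        FreeGroup.lift_apply_of
      rw [h2, ← hi]
      rfl
    rw [← hX] at h1
    obtain ⟨x, hx, rfl⟩ := h1
    exact ⟨⟨x, hx⟩, rfl⟩
  obtain ⟨z', hz'⟩ := hmem z (by simp)
  have hl' : ∃ l' : List X, l'.map (fun x : X => θ' x) = l := by
    have : ∀ l0 : List P, (∀ q ∈ l0, ∃ x : X, θ' x = q) →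
        ∃ l' : List X, l'.map (fun x : X => θ' x) = l0 := by
      intro l0
      induction l0 with
      | nil => intro _; exact ⟨[], rfl⟩
      | cons a l0 ih =>
        intro h
        obtain ⟨x, hx⟩ := h a (by simp)
        obtain ⟨l', hl'⟩ := ih fun q hq => h q (by simp [hq])
        exact ⟨x :: l', by simp [hx, hl']⟩
    exact this l fun q hq => hmem q (by simp [hq])
  obtain ⟨l', hl'⟩ := hl'
  have hlen : l'.length = c := by
    have h := congrArg List.length hl'
    rw [List.length_map] at h
    exact h.trans hl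
  have hone : LN z' l' = 1 := by
    apply Subtype.ext
    apply Subtype.ext
    funext ψ
    let ev : X →* G := ((Pi.evalMonoidHom (fun _ : F →* G => G) ψ).comp Φ.range.subtype).comp
      X.subtype
    have h1 : ev (LN z' l') = 1 := by
      have hnil : Group.IsNilpotent ev.range :=
        Group.nilpotent_of_surjective ev.rangeRestrict ev.rangeRestrict_surjective
      have h2 := hc ev.range hnil
      rw [map_LN]
      have h3 := LN_mem ev.range (ev z') ⟨z', rfl⟩ (l'.map ev) (by
        intro y hy
        obtain ⟨x, _, rfl⟩ := List.mem_map.1 hy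
        exact ⟨x, rfl⟩)
      rw [List.length_map, hlen, h2] at h3
      exact h3
    exact h1
  have h4 := map_LN (θ'.comp X.subtype) z' l'
  rw [hone, map_one] at h4
  have h5 : l'.map (θ'.comp X.subtype) = l := hl'
  have h6 : (θ'.comp X.subtype) z' = z := hz'
  rw [h5, h6] at h4
  exact h4.symm

/-! ### Local finiteness -/

lemma finite_homs (H P : Type) [Group H] [Group.FG H] [Group P] [Finite P] :
    Finite (H →* P) := by
  obtain ⟨S, hS, hSf⟩ := Group.fg_iff.1 (inferInstance : Group.FG H)
  have : Finite S := hSf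
  refine Finite.of_injective (β := S → P) (fun f s => f s) ?_
  intro f f' h
  refine MonoidHom.eq_of_eqOn_dense hS ?_
  intro s hs
  exact congrFun h ⟨s, hs⟩

lemma exists_perm_hom {H : Type} [Group H] (M : Subgroup H) {m : ℕ} (h0 : M.index ≠ 0)
    (hm : M.index ≤ m) : ∃ f : H →* Equiv.Perm (Fin m), f.ker = M.normalCore := by
  have hfi : M.FiniteIndex := ⟨h0⟩
  have : Finite (H ⧸ M) := Subgroup.finite_quotient_of_finiteIndex
  have : Fintype (H ⧸ M) := Fintype.ofFinite _
  have hne : Nonempty (H ⧸ M ↪ Fin m) := by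
    apply Function.Embedding.nonempty_of_card_le
    rw [Fintype.card_fin, ← Nat.card_eq_fintype_card]
    exact hm
  obtain ⟨e⟩ := hne
  refine ⟨(Equiv.Perm.viaEmbeddingHom e).comp (MulAction.toPermHom H (H ⧸ M)), ?_⟩
  rw [Subgroup.normalCore_eq_ker]
  ext x
  simp only [MonoidHom.mem_ker, MonoidHom.comp_apply]
  rw [← (Equiv.Perm.viaEmbeddingHom_injective e).eq_iff, map_one]

lemma locfin {g c : ℕ} (hg : g ≠ 0) (G : Type) [Group G]
    (hc : ∀ (P : Type) [Group P], Group.IsNilpotent P → Laws (Fin (c + 1)) G P →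
      (⊤ : Subgroup P).lowerCentralSeries c = ⊥)
    (H : Type) [Group H] (hfg : Group.FG H) (hV : LawV g H) (hexp : ∀ h : H, h ^ g = 1)
    (hlaw : Laws (Fin (c + 1)) G H) : Finite H := by
  classical
  have hfh : Finite (H →* Equiv.Perm (Fin g)) := finite_homs H _
  let C : Subgroup H := ⨅ f : H →* Equiv.Perm (Fin g), f.ker
  have hCn : C.Normal := Subgroup.normal_iInf_normal fun f => inferInstance
  have hCfi : C.FiniteIndex := Subgroup.finiteIndex_iInf fun f => Subgroup.finiteIndex_ker f
  have hCle : ∀ N : Subgroup H, N.Normal → N.index ≠ 0 → N.index ≤ g → C ≤ N := by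
    intro N hN h0 hle
    obtain ⟨f, hf⟩ := exists_perm_hom N h0 hle
    rw [Subgroup.normalCore_eq_self] at hf
    rw [← hf]
    exact iInf_le _ f
  let E : Subgroup H := C.lowerCentralSeries c
  have hEn : E.Normal := inferInstanceAs (C.lowerCentralSeries c).Normal
  -- `E` has finite index
  have hEfi : E.FiniteIndex := by
    let q := QuotientGroup.mk' E
    have hq : Function.Surjective q := QuotientGroup.mk'_surjective E
    let C' := C.map q
    have hC'b : C'.lowerCentralSeries c = ⊥ := by
      rw [← Subgroup.map_lowerCentralSeries, Subgroup.map_eq_bot_iff, QuotientGroup.ker_mk']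
    have hC'nil : Group.IsNilpotent C' := Subgroup.isNilpotent_of_lowerCentralSeries_eq_bot hC'b
    have hC'fi : C'.FiniteIndex :=
      ⟨fun h => hCfi.index_ne_zero (Nat.eq_zero_of_zero_dvd (h ▸ Subgroup.index_map_dvd C hq))⟩
    have hfgq : Group.FG (H ⧸ E) := QuotientGroup.fg E
    have hC'fg : Group.FG C' := Subgroup.fg_of_index_ne_zero _
    have hC'f : Finite C' := by
      refine nil_finite hg C' hC'fg ?_
      rintro ⟨x, hx⟩
      obtain ⟨y, rfl⟩ := hq x
      apply Subtype.ext
      change (q y) ^ g = 1
      rw [← map_pow, hexp, map_one]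
    have hfin : Finite (H ⧸ E) :=
      (Subgroup.finite_iff_finite_and_finiteIndex C').2 ⟨hC'f, hC'fi⟩
    exact Subgroup.finiteIndex_of_finite_quotient
  -- `E` is contained in every normal subgroup of finite index
  have hEle : ∀ N : Subgroup H, N.Normal → N.FiniteIndex → E ≤ N := by
    intro N hN hNfi
    let q := QuotientGroup.mk' N
    have hq : Function.Surjective q := QuotientGroup.mk'_surjective N
    have : Finite (H ⧸ N) := Subgroup.finite_quotient_of_finiteIndex
    have hCnil : Group.IsNilpotent (C.map q) := by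
      refine lemC (hV.of_surjective q hq) (C.map q) ?_
      intro N' hN' hle
      rw [Subgroup.map_le_iff_le_comap]
      refine hCle _ (hN'.comap q) ?_ ?_
      · rw [Subgroup.index_comap_of_surjective _ hq]
        exact Subgroup.index_ne_zero_of_finite
      · rw [Subgroup.index_comap_of_surjective _ hq]
        exact hle
    have h1 := hc (C.map q) hCnil
      ((hlaw.of_surjective q hq).of_injective (C.map q).subtype (C.map q).subtype_injective)
    have h2 : (C.map q).lowerCentralSeries c = ⊥ := by
      rw [← Subgroup.top_subtype_lowerCentralSeries, h1, Subgroup.map_bot]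
    rw [← Subgroup.map_lowerCentralSeries, Subgroup.map_eq_bot_iff, QuotientGroup.ker_mk'] at h2
    exact h2
  -- `E` is trivial
  have hEb : E = ⊥ := by
    by_contra hEb
    have hnt : Nontrivial E := E.nontrivial_iff_ne_bot.2 hEb
    have hEfg : Group.FG E := Subgroup.fg_of_index_ne_zero _
    obtain ⟨M, hM, hM0, -⟩ := propSub E hg (hV.of_injective E.subtype E.subtype_injective) (by
      intro h
      apply Subtype.ext
      exact hexp h)
    have hM'fi : (M.map E.subtype).FiniteIndex := ⟨by
      rw [Subgroup.index_map_subtype]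
      exact mul_ne_zero hM0 hEfi.index_ne_zero⟩
    have h1 := hEle (M.map E.subtype).normalCore inferInstance inferInstance
    apply hM
    rw [eq_top_iff]
    intro x _
    obtain ⟨y, hy, hyx⟩ := Subgroup.normalCore_le _ (h1 x.2)
    have : y = x := Subtype.ext hyx
    exact this ▸ hy
  rw [hEb] at hEfi
  exact Subgroup.finite_iff_finite_and_finiteIndex (⊥ : Subgroup H) |>.2 ⟨inferInstance, hEfi⟩

/-! ### Finitely many members of a basis suffice -/

lemma finite_laws (G : Type) [Group G] [Finite G] (S : Set QId) (hb : IsBasis G S)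
    (ι : Type) [Finite ι] :
    ∃ T : Set QId, T ⊆ S ∧ T.Finite ∧
      ∀ (H : Type) [Group H], (∀ p ∈ T, Holds H p) → Laws ι G H := by
  classical
  obtain ⟨k, ⟨e⟩⟩ := Finite.exists_equiv_fin ι
  obtain ⟨T, hTS, hTf, hT⟩ := fin_axiom G S hb k
  refine ⟨T, hTS, hTf, fun H _ hH φ w hw => ?_⟩
  let K : Subgroup H := Subgroup.closure (Set.range fun i : Fin k => φ (FreeGroup.of (e.symm i)))
  let x : Fin k → K := fun i => ⟨φ (FreeGroup.of (e.symm i)), Subgroup.subset_closure ⟨i, rfl⟩⟩
  have hx : Subgroup.closure (Set.range x) = ⊤ := by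
    have h1 : Subgroup.map K.subtype (Subgroup.closure (Set.range x)) =
        Subgroup.map K.subtype ⊤ := by
      rw [MonoidHom.map_closure, ← Set.range_comp, ← MonoidHom.range_eq_map,
        Subgroup.range_subtype]
      rfl
    exact Subgroup.map_injective K.subtype_injective h1
  let m : FreeGroup ι →* FreeGroup ℕ := FreeGroup.map fun i => (e i : ℕ)
  have h1 := hT K x hx (fun p hp => (hH p hp).subgroup K) (∅, m w) (by
    intro ψ _
    exact hw (ψ.comp m))
  have h2 := h1 (FreeGroup.lift fun n => if h : n < k then x ⟨n, h⟩ else 1) (by simp)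
  have h3 : (K.subtype.comp (FreeGroup.lift fun n => if h : n < k then x ⟨n, h⟩ else 1)).comp m
      = φ := by
    ext i
    simp [m, x]
  have h4 := DFunLike.congr_fun h3 w
  rw [← h4]
  simp only [MonoidHom.comp_apply]
  have h5 : (FreeGroup.lift fun n => if h : n < k then x ⟨n, h⟩ else 1) (m w) = 1 := h2
  rw [h5, map_one]

lemma lawV_of_laws {g : ℕ} {G H : Type} [Group G] [Group H] (hG : LawV g G)
    (h : Laws (Option (Fin (g + 1) ⊕ (Fin (g + 1) × Fin (g + 1)))) G H) : LawV g H := by
  intro z x y
  let ι := Option (Fin (g + 1) ⊕ (Fin (g + 1) × Fin (g + 1)))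
  let X : Fin (g + 1) → FreeGroup ι := fun i => FreeGroup.of (some (Sum.inl i))
  let Y : Fin (g + 1) × Fin (g + 1) → FreeGroup ι := fun p => FreeGroup.of (some (Sum.inr p))
  let φ : FreeGroup ι →* H := FreeGroup.lift fun i => match i with
    | none => z
    | some (Sum.inl i) => x i
    | some (Sum.inr p) => y p
  have h1 := h φ (W (FreeGroup.of none) ((prs g).map fun p => ((X p.1)⁻¹ * X p.2, Y p))) (by
    intro ψ
    rw [map_W, ← hG (ψ (FreeGroup.of none)) (fun i => ψ (X i)) (fun p => ψ (Y p))]
    simp [List.map_map, Function.comp_def])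
  rw [map_W] at h1
  simpa [List.map_map, Function.comp_def, φ, X, Y] using h1

lemma exp_of_laws {g : ℕ} {G H : Type} [Group G] [Group H] (hG : ∀ x : G, x ^ g = 1)
    (h : Laws Unit G H) : ∀ x : H, x ^ g = 1 := by
  intro x
  have h1 := h (FreeGroup.lift fun _ => x) (FreeGroup.of () ^ g) (by
    intro ψ
    rw [map_pow, hG])
  simpa using h1

/-- A finite subset of a basis of a finite group `G` suffices for: finitely generated groups
are finite, and nontrivial finite groups have proper subgroups of index at most `|G|`. -/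
lemma exists_S0 (G : Type) [Group G] [Finite G] (S : Set QId) (hb : IsBasis G S) :
    ∃ T : Set QId, T ⊆ S ∧ T.Finite ∧
      (∀ (H : Type) [Group H], (∀ p ∈ T, Holds H p) → Group.FG H → Finite H) ∧
      (∀ (H : Type) [Group H] [Finite H] [Nontrivial H], (∀ p ∈ T, Holds H p) →
        ∃ M : Subgroup H, M ≠ ⊤ ∧ M.index ≠ 0 ∧ M.index ≤ Nat.card G) := by
  classical
  let g := Nat.card G
  have hg : g ≠ 0 := Nat.card_pos.ne'
  obtain ⟨c, hc⟩ := class_bound G
  obtain ⟨T1, hT1, hT1f, h1⟩ := finite_laws G S hb
    (Option (Fin (g + 1) ⊕ (Fin (g + 1) × Fin (g + 1))))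
  obtain ⟨T2, hT2, hT2f, h2⟩ := finite_laws G S hb Unit
  obtain ⟨T3, hT3, hT3f, h3⟩ := finite_laws G S hb (Fin (c + 1))
  have hV : ∀ (H : Type) [Group H], (∀ p ∈ T1, Holds H p) → LawV g H :=
    fun H _ hH => lawV_of_laws LawV.self (h1 H hH)
  have hE : ∀ (H : Type) [Group H], (∀ p ∈ T2, Holds H p) → ∀ x : H, x ^ g = 1 :=
    fun H _ hH => exp_of_laws (fun x => pow_card_eq_one') (h2 H hH)
  refine ⟨T1 ∪ T2 ∪ T3, Set.union_subset (Set.union_subset hT1 hT2) hT3,
    (hT1f.union hT2f).union hT3f, ?_, ?_⟩
  · intro H _ hH hfg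
    exact locfin hg G hc H hfg (hV H fun p hp => hH p (Or.inl (Or.inl hp)))
      (hE H fun p hp => hH p (Or.inl (Or.inr hp))) (h3 H fun p hp => hH p (Or.inr hp))
  · intro H _ _ _ hH
    exact propSub H hg (hV H fun p hp => hH p (Or.inl (Or.inl hp)))
      (hE H fun p hp => hH p (Or.inl (Or.inr hp)))

end Pool.Agent.H318.QI
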