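import Mathlib
import Pool.Agent.H318.QI.Basic
import Pool.Agent.H318.QI.LocFin

set_option autoImplicit false

/-!
Every independent basis of quasi-identities of a finite group is finite.
-/

namespace Pool.Agent.H318.QI

/-! ### The verbal-type subgroup `Xi` -/

/-- The elements killed by all homomorphisms to groups satisfying `σ`. -/
def Xi (σ : QId) (Y : Type) [Group Y] : Subgroup Y where
  carrier := {y | ∀ (Z : Type) [Group Z] (f : Y →* Z), Holds Z σ → f y = 1}
  one_mem' := fun Z _ f _ => map_one f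
  mul_mem' := fun {a b} ha hb Z _ f hZ => by rw [map_mul, ha Z f hZ, hb Z f hZ, one_mul]
  inv_mem' := fun {a} ha Z _ f hZ => by rw [map_inv, ha Z f hZ, inv_one]

lemma Xi_map {σ : QId} {Y Y' : Type} [Group Y] [Group Y'] (f : Y →* Y') {y : Y}
    (hy : y ∈ Xi σ Y) : f y ∈ Xi σ Y' :=
  fun Z _ f' hZ => hy Z (f'.comp f) hZ

lemma exists_Xi_ne_one {σ : QId} {Y : Type} [Group Y] (h : ¬ Holds Y σ) :
    ∃ y ∈ Xi σ Y, y ≠ 1 := by
  by_contra hcon
  push Not at hcon
  apply h
  apply holds_of_sep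
  intro x hx
  have hx' : x ∉ Xi σ Y := fun hmem => hx (hcon x hmem)
  have : ¬ ∀ (Z : Type) [Group Z] (f : Y →* Z), Holds Z σ → f x = 1 := hx'
  push Not at this
  obtain ⟨Z, hZ, f, h1, h2⟩ := this
  exact ⟨Z, hZ, f, h1, h2⟩

/-! ### Minimal candidates -/

/-- finite groups satisfying `S \ {σ}` but failing `σ`. -/
structure Cand (S : Set QId) (σ : QId) where
  X : Type
  [grp : Group X]
  [fin : Finite X]
  sat : ∀ p ∈ S, p ≠ σ → Holds X p
  fail : ¬ Holds X σ

attribute [instance] Cand.grp Cand.fin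

/-- The data attached to a member of the basis. -/
structure Dat (G : Type) (S : Set QId) (σ : QId) where
  I : Type
  [grp : Group I]
  [fin : Finite I]
  sat : ∀ p ∈ S, p ≠ σ → Holds I p
  min : ∀ Y : Cand S σ, Nat.card (Xi σ I) ≤ Nat.card (Xi σ Y.X)
  c : I
  hc : c ∈ Xi σ I
  π : I →* Equiv.Perm (Fin (Nat.card G * Nat.card G))
  hπ : π c ≠ 1

attribute [instance] Dat.grp Dat.fin

/-- existence of the data. -/
lemma exists_dat {G : Type} [Group G] [Finite G] {S : Set QId} (hb : IsBasis G S)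
    {σ : QId} (hne : Nonempty (Cand S σ))
    (hprop : ∀ (H : Type) [Group H] [Finite H] [Nontrivial H], (∀ p ∈ S, p ≠ σ → Holds H p) →
        ∃ M : Subgroup H, M ≠ ⊤ ∧ M.index ≠ 0 ∧ M.index ≤ Nat.card G) :
    Nonempty (Dat G S σ) := by
  classical
  -- minimise
  obtain ⟨C, hC⟩ := (show ∃ C : Cand S σ, ∀ D : Cand S σ,
      Nat.card (Xi σ C.X) < Nat.card (Xi σ D.X) ∨
      (Nat.card (Xi σ C.X) = Nat.card (Xi σ D.X) ∧ Nat.card C.X ≤ Nat.card D.X) from by
    let f : Cand S σ → ℕ ×ₗ ℕ := fun C => toLex (Nat.card (Xi σ C.X), Nat.card C.X)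
    obtain ⟨_, ⟨C, rfl⟩, hC⟩ := (wellFounded_lt (α := ℕ ×ₗ ℕ)).has_min (Set.range f)
      ⟨f hne.some, hne.some, rfl⟩
    refine ⟨C, fun D => ?_⟩
    have := hC (f D) ⟨D, rfl⟩
    rw [not_lt, Prod.Lex.le_iff] at this
    exact this)
  have hmin : ∀ Y : Cand S σ, Nat.card (Xi σ C.X) ≤ Nat.card (Xi σ Y.X) := by
    intro Y
    rcases hC Y with h | h
    · exact h.le
    · exact h.1.le
  have hsub : ∀ M : Subgroup C.X, M ≠ ⊤ → ∀ p ∈ S, Holds M p := by
    intro M hM p hp
    by_cases hpσ : p = σ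
    · subst hpσ
      by_contra hfail
      let D : Cand S p := ⟨M, fun q hq hne => (C.sat q hq hne).subgroup M, hfail⟩
      have h1 : Nat.card (Xi p D.X) ≤ Nat.card (Xi p C.X) := by
        refine Nat.card_le_card_of_injective
          (fun y : Xi p D.X => (⟨M.subtype y.1, Xi_map M.subtype y.2⟩ : Xi p C.X)) ?_
        intro a b hab
        have := congrArg Subtype.val hab
        exact Subtype.ext (M.subtype_injective this)
      rcases hC D with h | ⟨_, h⟩
      · omega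
      · have h3 : Nat.card M < Nat.card C.X := by
          refine lt_of_le_of_ne (Subgroup.card_le_card_group M) fun h => hM ?_
          exact Subgroup.eq_top_of_card_eq M h
        exact absurd h (not_le.2 h3)
    · exact (C.sat p hp hpσ).subgroup M
  obtain ⟨c, hc, hc1⟩ := exists_Xi_ne_one C.fail
  have hnt : Nontrivial C.X := ⟨⟨c, 1, hc1⟩⟩
  obtain ⟨M, hM, hM0, hMg⟩ := hprop C.X C.sat
  have hg : 0 < Nat.card G := Nat.card_pos
  -- a subgroup of small index not containing `c`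
  have hN : ∃ N : Subgroup C.X, c ∉ N ∧ N.index ≠ 0 ∧ N.index ≤ Nat.card G * Nat.card G := by
    by_cases hcM : c ∈ M
    · obtain ⟨f, hf⟩ := separation hb (hsub M hM) ⟨c, hcM⟩ (by
        intro h
        exact hc1 (congrArg Subtype.val h))
      refine ⟨f.ker.map M.subtype, ?_, Subgroup.index_ne_zero_of_finite, ?_⟩
      · rintro ⟨y, hy, hyc⟩
        apply hf
        have : y = ⟨c, hcM⟩ := Subtype.ext hyc
        rw [← this]
        exact hy
      · rw [Subgroup.index_map_subtype, Subgroup.index_ker]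
        exact Nat.mul_le_mul (Subgroup.card_le_card_group _) hMg
    · exact ⟨M, hcM, hM0, hMg.trans (Nat.le_mul_of_pos_left _ hg)⟩
  obtain ⟨N, hcN, hN0, hNg⟩ := hN
  obtain ⟨π, hπ⟩ := exists_perm_hom N hN0 hNg
  refine ⟨⟨C.X, C.sat, hmin, c, hc, π, fun h => hcN ?_⟩⟩
  have : c ∈ π.ker := h
  rw [hπ] at this
  exact Subgroup.normalCore_le _ this

/-- The key minimality argument. -/
lemma Dat.key {G : Type} {S : Set QId} {σ : QId} (D : Dat G S σ) (Y : Cand S σ)
    {Z : Type} [Group Z] (hZ : Holds Z σ) (p1 : Y.X →* D.I) (p2 : Y.X →* Z)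
    (hinj : ∀ y, p1 y = 1 → p2 y = 1 → y = 1) : ∃ y, p1 y = D.c ∧ p2 y = 1 := by
  let f : Xi σ Y.X → Xi σ D.I := fun y => ⟨p1 y.1, Xi_map p1 y.2⟩
  have hf : Function.Injective f := by
    intro a b hab
    have h1 : p1 a.1 = p1 b.1 := congrArg Subtype.val hab
    have ha : p2 a.1 = 1 := a.2 Z p2 hZ
    have hb : p2 b.1 = 1 := b.2 Z p2 hZ
    apply Subtype.ext
    have := hinj (a.1 * b.1⁻¹) (by rw [map_mul, map_inv, h1, mul_inv_cancel])
      (by rw [map_mul, map_inv, ha, hb, inv_one, one_mul])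
    exact mul_inv_eq_one.1 this
  have hbij := hf.bijective_of_nat_card_le (D.min Y)
  obtain ⟨y, hy⟩ := hbij.2 ⟨D.c, D.hc⟩
  exact ⟨y.1, congrArg Subtype.val hy, y.2 Z p2 hZ⟩

/-! ### The fibre product -/

/-- The fibre product. -/
def Fib {G : Type} {S : Set QId} {σ τ : QId} (D : Dat G S σ) (E : Dat G S τ) :
    Subgroup (D.I × E.I) :=
  (D.π.comp (MonoidHom.fst _ _)).eqLocus (E.π.comp (MonoidHom.snd _ _))

lemma mem_Fib {G : Type} {S : Set QId} {σ τ : QId} (D : Dat G S σ) (E : Dat G S τ)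
    (z : D.I × E.I) : z ∈ Fib D E ↔ D.π z.1 = E.π z.2 := Iff.rfl

lemma pair_hom {G : Type} [Group G] [Finite G] {S : Set QId} (hb : IsBasis G S)
    {σ τ : QId} (hσ : σ ∈ S) (hτ : τ ∈ S) (hne : σ ≠ τ)
    (D : Dat G S σ) (E : Dat G S τ) (hd : D.π D.c = E.π E.c)
    (k : ℕ) (hk : ∀ (H : Type) [Group H], ¬ Holds H σ →
      ∃ (K : Subgroup H) (x : Fin k → K), Subgroup.closure (Set.range x) = ⊤ ∧ ¬ Holds K σ)
    (T : Set QId) (hTS : T ⊆ S) (hτT : τ ∉ T)
    (hT : ∀ (H : Type) [Group H] (x : Fin k → H), Subgroup.closure (Set.range x) = ⊤ →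
        (∀ p ∈ T, Holds H p) → ∀ q, Holds G q → Holds H q) :
    ∃ F : D.I → E.I → G, (∀ x x' y y', D.π x = E.π y → D.π x' = E.π y' →
      F (x * x') (y * y') = F x y * F x' y') ∧ F D.c E.c ≠ 1 := by
  classical
  have hGS : ∀ p ∈ S, Holds G p := fun p hp => (hb p).2 fun H _ h => h p hp
  -- projections
  let q1 : Fib D E →* D.I := (MonoidHom.fst _ _).comp (Fib D E).subtype
  let q2 : Fib D E →* E.I := (MonoidHom.snd _ _).comp (Fib D E).subtype
  have hq : ∀ z : Fib D E, q1 z = 1 → q2 z = 1 → z = 1 := by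
    intro z h1 h2
    exact Subtype.ext (Prod.ext h1 h2)
  have hDτ : Holds D.I τ := D.sat τ hτ hne.symm
  have hEσ : Holds E.I σ := E.sat σ hσ hne
  have hX1 : ∀ p ∈ S, p ≠ σ → p ≠ τ → Holds (Fib D E) p := by
    intro p hp h1 h2
    have h3 : Holds (D.I × E.I) p := by
      apply holds_of_sep
      rintro ⟨x, y⟩ hxy
      by_cases hx : x = 1
      · refine ⟨E.I, inferInstance, MonoidHom.snd _ _, E.sat p hp h2, fun hy => hxy ?_⟩
        exact Prod.ext hx hy
      · exact ⟨D.I, inferInstance, MonoidHom.fst _ _, D.sat p hp h1, hx⟩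
    exact h3.subgroup _
  have hXσ : Holds (Fib D E) σ := by
    by_contra hfail
    obtain ⟨K, x, hx, hKσ⟩ := hk _ hfail
    let p1 : K →* D.I := q1.comp K.subtype
    let p2 : K →* E.I := q2.comp K.subtype
    have hp : ∀ z : K, p1 z = 1 → p2 z = 1 → z = 1 := by
      intro z h1 h2
      exact Subtype.ext (hq z h1 h2)
    -- the second projection satisfies everything
    have hB : ∀ q, Holds G q → Holds p2.range q := by
      refine hT p2.range (fun i => p2.rangeRestrict (x i)) ?_ ?_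
      · have : Set.range (fun i => p2.rangeRestrict (x i)) = p2.rangeRestrict '' Set.range x := by
          rw [← Set.range_comp]
          rfl
        rw [this, ← MonoidHom.map_closure, hx,
          Subgroup.map_top_of_surjective _ p2.rangeRestrict_surjective]
      · intro p hpT
        exact (E.sat p (hTS hpT) (fun h => hτT (h ▸ hpT))).subgroup _
    have hsat : ∀ p ∈ S, p ≠ σ → Holds K p := by
      intro p hpS hpσ
      apply holds_of_sep
      intro z hz
      by_cases hz1 : p1 z = 1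
      · refine ⟨p2.range, inferInstance, p2.rangeRestrict, hB p (hGS p hpS), fun h => hz ?_⟩
        exact hp z hz1 (congrArg Subtype.val h)
      · exact ⟨D.I, inferInstance, p1, D.sat p hpS hpσ, hz1⟩
    obtain ⟨y, hy1, hy2⟩ := D.key ⟨K, hsat, hKσ⟩ hEσ p1 p2 hp
    apply D.hπ
    have h1 : D.π (p1 y) = E.π (p2 y) := y.1.2
    rw [hy1, hy2, map_one] at h1
    exact h1
  have hXτ : Holds (Fib D E) τ := by
    by_contra hfail
    have hsat : ∀ p ∈ S, p ≠ τ → Holds (Fib D E) p := by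
      intro p hpS hpτ
      by_cases hpσ : p = σ
      · rw [hpσ]; exact hXσ
      · exact hX1 p hpS hpσ hpτ
    obtain ⟨y, hy1, hy2⟩ := E.key ⟨Fib D E, hsat, hfail⟩ hDτ q2 q1 (fun z h1 h2 => hq z h2 h1)
    apply E.hπ
    have h1 : D.π (q1 y) = E.π (q2 y) := y.2
    rw [hy1, hy2, map_one] at h1
    exact h1.symm
  have hX : ∀ p ∈ S, Holds (Fib D E) p := by
    intro p hp
    by_cases h1 : p = σ
    · rw [h1]; exact hXσ
    by_cases h2 : p = τ
    · rw [h2]; exact hXτ
    exact hX1 p hp h1 h2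
  let cc : Fib D E := ⟨(D.c, E.c), hd⟩
  obtain ⟨f, hf⟩ := separation hb hX cc (by
    intro h
    apply D.hπ
    have : D.c = 1 := congrArg (fun z : Fib D E => z.1.1) h
    rw [this, map_one])
  refine ⟨fun x y => if h : (x, y) ∈ Fib D E then f ⟨(x, y), h⟩ else 1, ?_, ?_⟩
  · intro x x' y y' h h'
    have hm : (x, y) ∈ Fib D E := h
    have hm' : (x', y') ∈ Fib D E := h'
    have hm2 : (x * x', y * y') ∈ Fib D E := mul_mem hm hm'
    simp only [dif_pos hm, dif_pos hm', dif_pos hm2]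
    rw [← map_mul]
    rfl
  · have hm : (D.c, E.c) ∈ Fib D E := hd
    simp only [dif_pos hm]
    exact hf

/-- The kernel homomorphism. -/
lemma exists_alpha {G : Type} [Group G] [Finite G] {S : Set QId}
    {σ τ : QId} (D : Dat G S σ) (E : Dat G S τ) (F : D.I → E.I → G)
    (hF : ∀ x x' y y', D.π x = E.π y → D.π x' = E.π y' →
      F (x * x') (y * y') = F x y * F x' y') :
    ∃ α : D.I →* Equiv.Perm (Fin (Nat.card G *
        Nat.card (Equiv.Perm (Fin (Nat.card G * Nat.card G))))),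
      ∀ x, α x = 1 → D.π x = 1 → F x 1 = 1 := by
  classical
  let K := D.π.ker
  let ψ : K →* G := MonoidHom.mk' (fun x => F x 1) (by
    intro a b
    have ha : D.π a = E.π 1 := by rw [map_one]; exact a.2
    have hb : D.π b = E.π 1 := by rw [map_one]; exact b.2
    have := hF a b 1 1 ha hb
    rw [mul_one] at this
    exact this)
  let C : Subgroup D.I := ψ.ker.map K.subtype
  have hC0 : C.index ≠ 0 := Subgroup.index_ne_zero_of_finite
  have hCi : C.index ≤ Nat.card G * Nat.card (Equiv.Perm (Fin (Nat.card G * Nat.card G))) := by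
    rw [Subgroup.index_map_subtype, Subgroup.index_ker, Subgroup.index_ker]
    exact Nat.mul_le_mul (Subgroup.card_le_card_group _) (Subgroup.card_le_card_group _)
  obtain ⟨α, hα⟩ := exists_perm_hom C hC0 hCi
  refine ⟨α, fun x hx hπ => ?_⟩
  have h1 : x ∈ α.ker := hx
  rw [hα] at h1
  obtain ⟨y, hy, rfl⟩ := Subgroup.normalCore_le _ h1
  exact hy

/-! ### The Ramsey argument -/

lemma ultra_const {α β : Type} [Finite β] (U : Ultrafilter α) (f : α → β) :
    ∃ b, ∀ᶠ a in (U : Filter α), f a = b := by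
  have h : ∀ᶠ a in (U : Filter α), ∃ b, f a = b := Filter.Eventually.of_forall fun a => ⟨_, rfl⟩
  exact Ultrafilter.eventually_exists_iff.1 h

theorem main (G : Type) [Group G] [Finite G] (S : Set QId) (hb : IsBasis G S)
    (hind : Independent S) : S.Finite := by
  classical
  by_contra hinf
  have hinf : S.Infinite := hinf
  have hGS : ∀ p ∈ S, Holds G p := fun p hp => (hb p).2 fun H _ h => h p hp
  obtain ⟨S0, hS0, hS0f, hlf, hps⟩ := exists_S0 G S hb
  let T := {σ // σ ∈ S \ S0}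
  have hTinf : Infinite T := (hinf.sdiff hS0f).to_subtype
  -- number of variables
  choose k hk using exists_numVars
  -- data
  have hdat : ∀ σ : T, Nonempty (Dat G S σ.1) := by
    intro σ
    have hcand : Nonempty (Cand S σ.1) := by
      have h1 := hind σ.1 σ.2.1
      push Not at h1
      obtain ⟨H, _, hH, hHσ⟩ := h1
      obtain ⟨K, x, hx, hKσ⟩ := hk σ.1 H hHσ
      have hKs : ∀ p ∈ S, p ≠ σ.1 → Holds K p := fun p hp hne => (hH p hp hne).subgroup K
      have hKfg : Group.FG K := Group.fg_iff.2 ⟨Set.range x, hx, Set.finite_range x⟩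
      have hKfin : Finite K := hlf K (fun p hp => hKs p (hS0 hp) fun h => σ.2.2 (h ▸ hp)) hKfg
      exact ⟨⟨K, hKs, hKσ⟩⟩
    refine exists_dat hb hcand ?_
    intro H _ _ _ hH
    exact hps H fun p hp => hH p (hS0 hp) fun h => σ.2.2 (h ▸ hp)
  let D : ∀ σ : T, Dat G S σ.1 := fun σ => (hdat σ).some
  choose Tk hTkS hTkf hTk using fin_axiom G S hb
  let U : Ultrafilter T := Filter.hyperfilter T
  obtain ⟨d, hd⟩ := ultra_const U (fun σ : T => (D σ).π (D σ).c)
  -- good pairs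
  let Good : T → T → Prop := fun σ τ =>
    (D σ).π (D σ).c = (D τ).π (D τ).c ∧ σ ≠ τ ∧ τ.1 ∉ Tk (k σ.1)
  have hgood : ∀ σ : T, (D σ).π (D σ).c = d → ∀ᶠ τ in (U : Filter T), Good σ τ := by
    intro σ hσ
    have h1 : ∀ᶠ τ in (U : Filter T), σ ≠ τ := by
      have : ({σ} : Set T)ᶜ ∈ U := (Set.finite_singleton σ).compl_mem_hyperfilter
      filter_upwards [this] with τ hτ h
      exact hτ h.symm
    have h2 : ∀ᶠ τ in (U : Filter T), τ.1 ∉ Tk (k σ.1) := by
      have hf : ({τ : T | τ.1 ∈ Tk (k σ.1)}).Finite :=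
        (hTkf (k σ.1)).preimage Subtype.val_injective.injOn
      have : ({τ : T | τ.1 ∈ Tk (k σ.1)})ᶜ ∈ U := hf.compl_mem_hyperfilter
      filter_upwards [this] with τ hτ
      exact hτ
    filter_upwards [h1, h2, hd] with τ h1 h2 h3
    exact ⟨hσ.trans h3.symm, h1, h2⟩
  have hpair : ∀ σ τ : T, ∃ (F : (D σ).I → (D τ).I → G)
      (α : (D σ).I →* Equiv.Perm (Fin (Nat.card G *
        Nat.card (Equiv.Perm (Fin (Nat.card G * Nat.card G)))))), Good σ τ →
      (∀ x x' y y', (D σ).π x = (D τ).π y → (D σ).π x' = (D τ).π y' →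
        F (x * x') (y * y') = F x y * F x' y') ∧ F (D σ).c (D τ).c ≠ 1 ∧
      ∀ x, α x = 1 → (D σ).π x = 1 → F x 1 = 1 := by
    intro σ τ
    by_cases hg : Good σ τ
    · obtain ⟨h1, h2, h3⟩ := hg
      obtain ⟨F, hF, hFc⟩ := pair_hom hb σ.2.1 τ.2.1 (fun h => h2 (Subtype.ext h)) (D σ) (D τ) h1
        (k σ.1) (hk σ.1) (Tk (k σ.1)) (hTkS _) h3 (hTk _)
      obtain ⟨α, hα⟩ := exists_alpha (D σ) (D τ) F hF
      exact ⟨F, α, fun _ => ⟨hF, hFc, hα⟩⟩
    · exact ⟨fun _ _ => 1, 1, fun h => absurd h hg⟩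
  choose F α hFα using hpair
  let colour : T → T → Set (Equiv.Perm (Fin (Nat.card G *
        Nat.card (Equiv.Perm (Fin (Nat.card G * Nat.card G))))) ×
          Equiv.Perm (Fin (Nat.card G * Nat.card G))) × Equiv.Perm (Fin (Nat.card G *
        Nat.card (Equiv.Perm (Fin (Nat.card G * Nat.card G))))) := fun σ τ =>
    (Set.range fun x : (D σ).I => (α σ τ x, (D σ).π x), α σ τ (D σ).c)
  have hχ : ∀ σ : T, ∃ χ, ∀ᶠ τ in (U : Filter T), colour σ τ = χ := fun σ => ultra_const U _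
  choose χ hχ using hχ
  obtain ⟨χ0, hχ0⟩ := ultra_const U χ
  -- choose the three indices
  obtain ⟨σ, hσ1, hσ2⟩ := (hd.and hχ0).exists
  obtain ⟨τ, ⟨hτ1, hτ2⟩, hτ3⟩ := (((hgood σ hσ1).and (hχ σ)).and hχ0).exists
  obtain ⟨ρ, hρ⟩ := (hχ τ).exists
  have hcol : colour σ τ = colour τ ρ := by rw [hτ2, hρ, hσ2, hτ3]
  obtain ⟨hF, hFc, hα⟩ := hFα σ τ hτ1
  have hcol1 : (Set.range fun x : (D σ).I => (α σ τ x, (D σ).π x)) =
      Set.range fun x : (D τ).I => (α τ ρ x, (D τ).π x) := congrArg Prod.fst hcol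
  have hcol2 : α σ τ (D σ).c = α τ ρ (D τ).c := congrArg Prod.snd hcol
  have hex : ∀ h : (D τ).I, ∃ x : (D σ).I, α σ τ x = α τ ρ h ∧ (D σ).π x = (D τ).π h := by
    intro h
    have h1 : (α τ ρ h, (D τ).π h) ∈ Set.range fun x : (D σ).I => (α σ τ x, (D σ).π x) := by
      rw [hcol1]
      exact ⟨h, rfl⟩
    obtain ⟨x, hx⟩ := h1
    exact ⟨x, congrArg Prod.fst hx, congrArg Prod.snd hx⟩
  -- well-definedness
  have hwd : ∀ (x x' : (D σ).I) (h : (D τ).I), α σ τ x = α σ τ x' → (D σ).π x = (D τ).π h →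
      (D σ).π x' = (D τ).π h → F σ τ x h = F σ τ x' h := by
    intro x x' h h1 h2 h3
    have h4 : (D σ).π (x⁻¹ * x') = 1 := by
      rw [map_mul, map_inv, h2, h3, inv_mul_cancel]
    have h5 := hα (x⁻¹ * x') (by rw [map_mul, map_inv, h1, inv_mul_cancel]) h4
    have h6 := hF x (x⁻¹ * x') h 1 h2 (by rw [h4, map_one])
    rw [h5, mul_one, mul_one, mul_inv_cancel_left] at h6
    exact h6.symm
  choose x hxα hxπ using hex
  let Φ : (D τ).I →* G := MonoidHom.mk' (fun h => F σ τ (x h) h) (by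
    intro a b
    rw [← hF (x a) (x b) a b (hxπ a) (hxπ b)]
    apply hwd
    · rw [hxα, map_mul, map_mul, hxα, hxα]
    · exact hxπ _
    · rw [map_mul, map_mul, hxπ, hxπ])
  have h1 : Φ (D τ).c = 1 := (D τ).hc G Φ (hGS τ.1 τ.2.1)
  apply hFc
  have h2 : F σ τ (x (D τ).c) (D τ).c = F σ τ (D σ).c (D τ).c := by
    apply hwd
    · rw [hxα, hcol2]
    · exact hxπ _
    · exact hτ1.1
  rw [← h2]
  exact h1

end Pool.Agent.H318.QI
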